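import Mathlib
import Pool.Agent.Results.MP_682720_co.LargeSets

/-!
# Sums of `k` elements of a set lying in the set: complement duality in finite abelian groups
-/

namespace Pool.Agent.Results.MP_ed46bc_co.ComplementDuality

open Finset

/-- number of `k`-tuples of elements of `A` whose sum lies in `A` -/
noncomputable def P {G : Type} [AddCommGroup G] [Fintype G] (k : ℕ) (A : Finset G) : ℕ := by
  classical
  exact (univ.filter fun a : Fin k → G => (∀ i, a i ∈ A) ∧ ∑ i, a i ∈ A).card

/-- the minimum of `P k A` over the subsets `A` of `G` with `m` elements -/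
noncomputable def Pmin (G : Type) [AddCommGroup G] [Fintype G] (k m : ℕ) : ℕ :=
  sInf {x : ℕ | ∃ A : Finset G, A.card = m ∧ P k A = x}

section
variable {G : Type} [AddCommGroup G] [Fintype G] [DecidableEq G]

/-- number of `k`-tuples from `A` with sum `s` -/
def cnt (k : ℕ) (A : Finset G) (s : G) : ℕ :=
  (univ.filter fun a : Fin k → G => (∀ i, a i ∈ A) ∧ ∑ i, a i = s).card

theorem cnt_succ (k : ℕ) (A : Finset G) (s : G) :
    cnt (k + 1) A s = ∑ x ∈ A, cnt k A (s - x) := by
  unfold cnt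
  simp only [Finset.card_filter]
  rw [← (Fin.consEquiv (fun _ => G)).sum_comp, Fintype.sum_prod_type]
  rw [← Finset.sum_subset (Finset.subset_univ A)]
  · refine Finset.sum_congr rfl fun x hx => Finset.sum_congr rfl fun a _ => ?_
    refine if_congr ?_ rfl rfl
    simp only [Fin.consEquiv_apply, Fin.forall_fin_succ, Fin.cons_zero, Fin.cons_succ,
      Fin.sum_univ_succ]
    constructor
    · rintro ⟨⟨_, h1⟩, h2⟩
      exact ⟨h1, by rw [← h2]; abel⟩
    · rintro ⟨h1, h2⟩
      exact ⟨⟨hx, h1⟩, by rw [h2]; abel⟩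
  · intro x _ hx
    refine Finset.sum_eq_zero fun a _ => ?_
    rw [if_neg]
    rintro ⟨h, _⟩
    have := h 0
    simp only [Fin.consEquiv_apply, Fin.cons_zero] at this
    exact hx this

theorem cnt_zero (A B : Finset G) (s : G) : cnt 0 A s = cnt 0 B s := by
  unfold cnt
  congr 1
  ext a
  simp

theorem sum_cnt (k : ℕ) (A : Finset G) : ∑ s, cnt k A s = A.card ^ k := by
  induction k with
  | zero =>
    unfold cnt
    simp only [Finset.card_filter, pow_zero]
    simp
  | succ k ih =>
    simp_rw [cnt_succ]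
    rw [Finset.sum_comm]
    have : ∀ x ∈ A, ∑ s, cnt k A (s - x) = A.card ^ k := by
      intro x _
      rw [← ih]
      exact (Equiv.subRight x).sum_comp (fun s => cnt k A s)
    rw [Finset.sum_congr rfl this, Finset.sum_const, smul_eq_mul, pow_succ, mul_comm]

theorem P_eq (k : ℕ) (A : Finset G) : P k A = ∑ s ∈ A, cnt k A s := by
  unfold P cnt
  rw [Finset.card_eq_sum_card_fiberwise (f := fun a : Fin k → G => ∑ i, a i) (t := A)]
  · refine Finset.sum_congr rfl fun s hs => ?_
    congr 1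
    ext a
    simp only [Finset.mem_filter, Finset.mem_univ, true_and]
    constructor
    · rintro ⟨⟨h1, _⟩, h2⟩
      exact ⟨h1, h2⟩
    · rintro ⟨h1, h2⟩
      exact ⟨⟨h1, h2 ▸ hs⟩, h2⟩
  · intro a ha
    simp only [Finset.coe_filter, Finset.mem_univ, true_and, Set.mem_ofPred_eq] at ha
    exact ha.2

theorem cnt_compl (k : ℕ) (A : Finset G) (s : G) :
    (Fintype.card G : ℤ) * cnt k A s = (-1) ^ k * (Fintype.card G * cnt k Aᶜ s) +
      ((A.card : ℤ) ^ k - (-1) ^ k * (Aᶜ.card : ℤ) ^ k) := by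
  induction k generalizing s with
  | zero => rw [cnt_zero A Aᶜ]; simp
  | succ k ih =>
    rw [cnt_succ, cnt_succ]
    push_cast
    rw [Finset.mul_sum, Finset.sum_congr rfl (fun x _ => ih (s - x)), Finset.sum_add_distrib,
      Finset.sum_const]
    have h1 : ∑ x ∈ A, (-1 : ℤ) ^ k * (Fintype.card G * (cnt k Aᶜ (s - x) : ℤ)) =
        (-1) ^ k * Fintype.card G * ((Aᶜ.card : ℤ) ^ k - ∑ x ∈ Aᶜ, (cnt k Aᶜ (s - x) : ℤ)) := by
      have h2 : ∑ x, (cnt k Aᶜ (s - x) : ℤ) = (Aᶜ.card : ℤ) ^ k := by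
        have := (Equiv.subLeft s).sum_comp (fun y => (cnt k Aᶜ y : ℤ))
        simp only [Equiv.subLeft_apply] at this
        rw [this]
        exact_mod_cast sum_cnt k Aᶜ
      rw [← h2, ← Finset.sum_add_sum_compl A (fun x => (cnt k Aᶜ (s - x) : ℤ)), add_sub_cancel_right,
        Finset.mul_sum]
      exact Finset.sum_congr rfl fun x _ => by ring
    rw [h1]
    have h3 : (Aᶜ.card : ℤ) = Fintype.card G - A.card := by
      rw [Finset.card_compl, Nat.cast_sub (Finset.card_le_univ A)]
    rw [nsmul_eq_mul]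
    have h4 : (Fintype.card G : ℤ) = Aᶜ.card + A.card := by rw [h3]; ring
    generalize (∑ x ∈ Aᶜ, (cnt k Aᶜ (s - x) : ℤ)) = S
    rw [h4]
    ring

theorem P_compl (k : ℕ) (A : Finset G) :
    (Fintype.card G : ℤ) * (P k A + (-1) ^ k * P k Aᶜ) =
      (A.card : ℤ) ^ (k + 1) + (-1) ^ k * (Aᶜ.card : ℤ) ^ (k + 1) := by
  rw [P_eq, P_eq]
  push_cast
  rw [mul_add, Finset.mul_sum, Finset.sum_congr rfl (fun x _ => cnt_compl k A x),
    Finset.sum_add_distrib, Finset.sum_const, ← Finset.mul_sum, ← Finset.mul_sum]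
  have h2 : ∑ x ∈ A, (cnt k Aᶜ x : ℤ) = (Aᶜ.card : ℤ) ^ k - ∑ x ∈ Aᶜ, (cnt k Aᶜ x : ℤ) := by
    have := Finset.sum_add_sum_compl A (fun x => (cnt k Aᶜ x : ℤ))
    have h3 : ∑ x, (cnt k Aᶜ x : ℤ) = (Aᶜ.card : ℤ) ^ k := by exact_mod_cast sum_cnt k Aᶜ
    rw [h3] at this
    linarith
  rw [h2]
  have h3 : (Aᶜ.card : ℤ) = Fintype.card G - A.card := by
    rw [Finset.card_compl, Nat.cast_sub (Finset.card_le_univ A)]
  have h4 : (Fintype.card G : ℤ) = Aᶜ.card + A.card := by rw [h3]; ring
  generalize (∑ x ∈ Aᶜ, (cnt k Aᶜ x : ℤ)) = S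
  rw [nsmul_eq_mul, h4]
  ring

end


theorem exists_index (n : ℕ) : ∀ (G : Type) [AddCommGroup G] [Finite G], Nat.card G = n →
    ∀ r, r ∣ n → ∃ H : AddSubgroup G, H.index = r := by
  induction n using Nat.strong_induction_on with
  | _ n ih =>
    intro G _ _ hn r hr
    by_cases h : r = n
    · exact ⟨⊥, by rw [AddSubgroup.index_bot, hn, h]⟩
    · have hnpos : 0 < n := hn ▸ Nat.card_pos
      obtain ⟨c, hc⟩ := hr
      have hc1 : c ≠ 1 := by rintro rfl; exact h (by omega)
      obtain ⟨p, hp, hpc⟩ := Nat.exists_prime_and_dvd hc1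
      have hpn : p ∣ Nat.card G := by rw [hn, hc]; exact hpc.mul_left r
      haveI := Fact.mk hp
      obtain ⟨x, hx⟩ := exists_prime_addOrderOf_dvd_card' p hpn
      have hcard : Nat.card G = Nat.card (G ⧸ AddSubgroup.zmultiples x) *
          Nat.card (AddSubgroup.zmultiples x) :=
        AddSubgroup.card_eq_card_quotient_mul_card_addSubgroup _
      rw [Nat.card_zmultiples, hx, hn] at hcard
      have hlt : Nat.card (G ⧸ AddSubgroup.zmultiples x) < n := by
        rw [hcard]
        have : 0 < Nat.card (G ⧸ AddSubgroup.zmultiples x) := Nat.card_pos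
        exact lt_mul_of_one_lt_right this hp.one_lt
      have hdvd : r ∣ Nat.card (G ⧸ AddSubgroup.zmultiples x) := by
        obtain ⟨e, he⟩ := hpc
        refine ⟨e, Nat.eq_of_mul_eq_mul_right hp.pos ?_⟩
        rw [← hcard, hc, he]
        ring
      obtain ⟨K, hK⟩ := ih _ hlt (G ⧸ AddSubgroup.zmultiples x) rfl r hdvd
      exact ⟨K.comap (QuotientAddGroup.mk' _), by
        rw [AddSubgroup.index_comap_of_surjective _ (QuotientAddGroup.mk'_surjective _), hK]⟩

section
variable {G : Type} [AddCommGroup G] [Fintype G]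

theorem P_le (k : ℕ) (A : Finset G) : P k A ≤ A.card ^ k := by
  classical
  rw [P_eq, ← sum_cnt k A]
  exact Finset.sum_le_sum_of_subset (Finset.subset_univ A)

theorem Pmin_le (k : ℕ) (A : Finset G) : Pmin G k A.card ≤ P k A :=
  Nat.sInf_le ⟨A, rfl, rfl⟩

theorem Pmin_mem (k : ℕ) {m : ℕ} (hm : m ≤ Fintype.card G) :
    ∃ A : Finset G, A.card = m ∧ P k A = Pmin G k m := by
  have hne : {x : ℕ | ∃ A : Finset G, A.card = m ∧ P k A = x}.Nonempty := by
    obtain ⟨A, _, hA⟩ := Finset.exists_subset_card_eq (s := (univ : Finset G)) (by simpa using hm)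
    exact ⟨P k A, A, hA, rfl⟩
  exact Nat.sInf_mem hne

/-- reflection for odd `k` -/
theorem Pmin_refl {k : ℕ} (hk : Odd k) {m : ℕ} (hm : m ≤ Fintype.card G) :
    (Fintype.card G : ℤ) * Pmin G k m = Fintype.card G * Pmin G k (Fintype.card G - m) +
      ((m : ℤ) ^ (k + 1) - ((Fintype.card G - m : ℕ) : ℤ) ^ (k + 1)) := by
  classical
  have key : ∀ A : Finset G, (Fintype.card G : ℤ) * P k A = Fintype.card G * P k Aᶜ +
      ((A.card : ℤ) ^ (k + 1) - (Aᶜ.card : ℤ) ^ (k + 1)) := by
    intro A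
    have := P_compl k A
    rw [hk.neg_one_pow] at this
    linarith
  have hn : (0 : ℤ) ≤ Fintype.card G := by positivity
  apply le_antisymm
  · obtain ⟨B, hB, hB2⟩ := Pmin_mem (G := G) k (m := Fintype.card G - m) (Nat.sub_le _ _)
    have hc : (Bᶜ).card = m := by rw [Finset.card_compl, hB]; omega
    have h1 := key Bᶜ
    rw [compl_compl, hc, hB, hB2] at h1
    rw [← h1]
    have h2 := Pmin_le k Bᶜ
    rw [hc] at h2
    exact mul_le_mul_of_nonneg_left (by exact_mod_cast h2) hn
  · obtain ⟨A, hA, hA2⟩ := Pmin_mem (G := G) k hm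
    have hc : (Aᶜ).card = Fintype.card G - m := by rw [Finset.card_compl, hA]
    have h1 := key A
    rw [hc, hA, hA2] at h1
    rw [h1]
    have h2 := Pmin_le k Aᶜ
    rw [hc] at h2
    have h3 : (Fintype.card G : ℤ) * Pmin G k (Fintype.card G - m) ≤
        Fintype.card G * P k Aᶜ := mul_le_mul_of_nonneg_left (by exact_mod_cast h2) hn
    linarith

theorem P_eq_zero_iff (k : ℕ) (A : Finset G) :
    P k A = 0 ↔ ∀ a : Fin k → G, (∀ i, a i ∈ A) → ∑ i, a i ∉ A := by
  classical
  unfold P
  rw [Finset.card_eq_zero, Finset.filter_eq_empty_iff]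
  simp

/-- sets without solutions of size up to `n / q` -/
theorem Pmin_zero {k : ℕ} (hk : 1 ≤ k) {q : ℕ} (hq : q.Prime) (hqn : q ∣ Fintype.card G)
    (hqk : ¬ q ∣ k - 1) {m : ℕ} (hm : m ≤ Fintype.card G / q) : Pmin G k m = 0 := by
  classical
  obtain ⟨H, hH⟩ := exists_index (Fintype.card G) G Nat.card_eq_fintype_card q hqn
  have hHcard : Nat.card H * q = Fintype.card G := by
    rw [← hH, ← Nat.card_eq_fintype_card]
    exact AddSubgroup.card_mul_index H
  have hHne : H ≠ ⊤ := by
    rintro rfl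
    rw [AddSubgroup.index_top] at hH
    exact hq.one_lt.ne hH
  obtain ⟨c, hc⟩ : ∃ c, c ∉ H := by
    by_contra hcon
    push Not at hcon
    exact hHne (by ext x; simp [hcon x])
  -- the coset c + H
  set C : Finset G := univ.filter (fun x => x - c ∈ H) with hCdef
  have hCcard : C.card = Fintype.card G / q := by
    have h1 : C.card = Nat.card H := by
      rw [Nat.card_eq_fintype_card, Fintype.card_subtype, hCdef]
      refine Finset.card_bij (fun x _ => x - c) ?_ ?_ ?_
      · intro x hx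
        simpa using hx
      · intro x _ y _ hxy
        exact sub_left_injective hxy
      · intro y hy
        exact ⟨y + c, by simpa using hy, by simp⟩
    rw [h1, ← hHcard, Nat.mul_div_cancel _ hq.pos]
  obtain ⟨A, hAC, hA⟩ := Finset.exists_subset_card_eq (s := C) (n := m) (by rw [hCcard]; exact hm)
  have hP : P k A = 0 := by
    rw [P_eq_zero_iff]
    intro a ha hsum
    have h1 : ∀ x ∈ A, x - c ∈ H := by
      intro x hx
      have := hAC hx
      simpa [hCdef] using this
    have h2 : ∑ i, (a i - c) ∈ H := AddSubgroup.sum_mem H fun i _ => h1 _ (ha i)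
    rw [Finset.sum_sub_distrib, Finset.sum_const, Finset.card_univ, Fintype.card_fin] at h2
    have h3 := h1 _ hsum
    have h4 : (k - 1) • c ∈ H := by
      have h5 := H.sub_mem h3 h2
      have h6 : ∑ i, a i - c - (∑ i, a i - k • c) = (k - 1) • c := by
        obtain ⟨j, rfl⟩ : ∃ j, k = j + 1 := ⟨k - 1, by omega⟩
        rw [Nat.add_sub_cancel, add_smul, one_smul]
        abel
      rwa [h6] at h5
    have h5 : q • c ∈ H := by
      rw [← hH]
      exact AddSubgroup.nsmul_index_mem H c
    have hcop : Nat.Coprime (k - 1) q := (Nat.Prime.coprime_iff_not_dvd hq).2 hqk |>.symm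
    have h6 : (1 : ℤ) • c ∈ H := by
      have hb := Nat.isCoprime_iff_coprime.2 hcop
      obtain ⟨u, v, huv⟩ := hb
      rw [← huv, add_smul, mul_smul, mul_smul, natCast_zsmul, natCast_zsmul]
      exact H.add_mem (H.zsmul_mem h4 u) (H.zsmul_mem h5 v)
    rw [one_smul] at h6
    exact hc h6
  have := Pmin_le k A
  rw [hA, hP] at this
  omega

/-- if every `k`-fold sum of elements of `B` lies in `B` then `B` is a coset -/
theorem card_dvd_of_closed {k : ℕ} (hk : 2 ≤ k) (B : Finset G) (hB : B.Nonempty)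
    (h : P k B = B.card ^ k) : B.card ∣ Fintype.card G := by
  classical
  -- every k-tuple has its sum in B
  have hall : ∀ a : Fin k → G, (∀ i, a i ∈ B) → ∑ i, a i ∈ B := by
    have h1 : (univ.filter fun a : Fin k → G => (∀ i, a i ∈ B) ∧ ∑ i, a i ∈ B) =
        Fintype.piFinset (fun _ : Fin k => B) := by
      refine Finset.eq_of_subset_of_card_le ?_ ?_
      · intro a ha
        rw [Fintype.mem_piFinset]
        exact (Finset.mem_filter.1 ha).2.1
      · rw [Fintype.card_piFinset_const]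
        have : P k B = (univ.filter fun a : Fin k → G => (∀ i, a i ∈ B) ∧ ∑ i, a i ∈ B).card := by
          unfold P
          congr
        rw [← this, h]
    intro a ha
    have h2 : a ∈ Fintype.piFinset (fun _ : Fin k => B) := by
      rw [Fintype.mem_piFinset]; exact ha
    rw [← h1] at h2
    exact (Finset.mem_filter.1 h2).2.2
  obtain ⟨b, hb⟩ := hB
  obtain ⟨j, rfl⟩ : ∃ j, k = j + 2 := ⟨k - 2, by omega⟩
  -- two free summands
  have h2 : ∀ x ∈ B, ∀ y ∈ B, x + y + j • b ∈ B := by
    intro x hx y hy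
    have := hall (Fin.cons x (Fin.cons y fun _ => b)) (by
      intro i
      refine Fin.cases ?_ (fun i => ?_) i
      · simpa using hx
      · refine Fin.cases ?_ (fun i => ?_) i
        · simpa using hy
        · simpa using hb)
    simp only [Fin.sum_univ_succ, Fin.cons_zero, Fin.cons_succ, Finset.sum_const,
      Finset.card_univ, Fintype.card_fin] at this
    rwa [← add_assoc] at this
  -- translation by t = (j+1) b preserves B
  set t : G := (j + 1) • b with ht
  have h3 : ∀ x ∈ B, x + t ∈ B := by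
    intro x hx
    have := h2 x hx b hb
    rw [ht, add_smul, one_smul]
    have h4 : x + (j • b + b) = x + b + j • b := by abel
    rw [h4]; exact this
  have h4 : ∀ x ∈ B, x - t ∈ B := by
    have himg : B.image (· + t) = B := by
      refine Finset.eq_of_subset_of_card_le ?_ ?_
      · intro y hy
        obtain ⟨x, hx, rfl⟩ := Finset.mem_image.1 hy
        exact h3 x hx
      · rw [Finset.card_image_of_injective _ (add_left_injective t)]
    intro x hx
    rw [← himg] at hx
    obtain ⟨y, hy, rfl⟩ := Finset.mem_image.1 hx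
    simpa using hy
  -- H = B - b is closed under addition
  have h5 : ∀ x y : G, x + b ∈ B → y + b ∈ B → (x + y) + b ∈ B := by
    intro x y hx hy
    have := h4 _ (h2 _ hx _ hy)
    have h6 : x + b + (y + b) + j • b - t = x + y + b := by
      rw [ht, add_smul, one_smul]; abel
    rwa [h6] at this
  let M : AddSubmonoid G :=
    { carrier := {x | x + b ∈ B}
      add_mem' := fun {x y} hx hy => h5 x y hx hy
      zero_mem' := by
        show (0 : G) + b ∈ B
        rwa [zero_add] }
  have hneg : ∀ x : G, x + b ∈ B → -x + b ∈ B := by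
    intro x hx
    have hx' : x ∈ M := hx
    have h7 : (addOrderOf x - 1) • x ∈ M := M.nsmul_mem hx' _
    have h8 : (addOrderOf x - 1) • x = -x := by
      have hpos : 0 < addOrderOf x := addOrderOf_pos x
      have h9 : (addOrderOf x - 1) • x + x = 0 := by
        rw [← succ_nsmul, Nat.sub_add_cancel hpos, addOrderOf_nsmul_eq_zero]
      exact eq_neg_of_add_eq_zero_left h9
    rw [h8] at h7
    exact h7
  let H : AddSubgroup G := { M with neg_mem' := fun {x} hx => hneg x hx }
  have hcard : Nat.card H = B.card := by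
    rw [Nat.card_eq_fintype_card, Fintype.card_subtype]
    refine Finset.card_bij (fun x _ => x + b) ?_ ?_ ?_
    · intro x hx
      exact (Finset.mem_filter.1 hx).2
    · intro x _ y _ hxy
      exact add_left_injective b hxy
    · intro y hy
      refine ⟨y - b, ?_, by simp⟩
      rw [Finset.mem_filter]
      refine ⟨Finset.mem_univ _, ?_⟩
      show y - b + b ∈ B
      simpa using hy
  rw [← hcard, ← Nat.card_eq_fintype_card (α := G)]
  exact AddSubgroup.card_addSubgroup_dvd_card H

end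

section
variable {G : Type} [AddCommGroup G] [Fintype G]

theorem P_full_of_forall (k : ℕ) (B : Finset G)
    (h : ∀ a : Fin k → G, (∀ i, a i ∈ B) → ∑ i, a i ∈ B) : P k B = B.card ^ k := by
  classical
  have h1 : (univ.filter fun a : Fin k → G => (∀ i, a i ∈ B) ∧ ∑ i, a i ∈ B) =
      Fintype.piFinset (fun _ : Fin k => B) := by
    ext a
    rw [Finset.mem_filter, Fintype.mem_piFinset]
    exact ⟨fun ha => ha.2.1, fun ha => ⟨Finset.mem_univ _, ha, h a ha⟩⟩
  rw [← Fintype.card_piFinset_const, ← h1]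
  unfold P
  congr

/-- the even case -/
theorem Pmin_even {k : ℕ} (hk : Even k) (hk0 : 1 ≤ k) {m : ℕ} (hm : m ≤ Fintype.card G) :
    (m : ℤ) * ((m : ℤ) ^ k - ((Fintype.card G - m : ℕ) : ℤ) ^ k) ≤
      Fintype.card G * Pmin G k m ∧
    ((Fintype.card G : ℤ) * Pmin G k m =
        (m : ℤ) * ((m : ℤ) ^ k - ((Fintype.card G - m : ℕ) : ℤ) ^ k) ↔
      m = Fintype.card G ∨ (Fintype.card G - m) ∣ Fintype.card G) := by
  classical
  have hk2 : 2 ≤ k := by
    obtain ⟨r, hr⟩ := hk
    omega
  have hnpos : (0 : ℤ) < Fintype.card G := by exact_mod_cast Fintype.card_pos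
  have hsum : (Fintype.card G : ℤ) = m + ((Fintype.card G - m : ℕ) : ℤ) := by
    rw [Nat.cast_sub hm]; ring
  have key : ∀ A : Finset G, A.card = m → (Fintype.card G : ℤ) * P k A =
      (m : ℤ) * ((m : ℤ) ^ k - ((Fintype.card G - m : ℕ) : ℤ) ^ k) +
      Fintype.card G * ((((Fintype.card G - m : ℕ) : ℤ)) ^ k - P k Aᶜ) := by
    intro A hA
    have h := P_compl k A
    rw [hk.neg_one_pow, Finset.card_compl, hA] at h
    have h2 : (Fintype.card G : ℤ) * (((Fintype.card G - m : ℕ) : ℤ)) ^ k =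
        (m : ℤ) * (((Fintype.card G - m : ℕ) : ℤ)) ^ k +
          (((Fintype.card G - m : ℕ) : ℤ)) ^ (k + 1) := by
      nth_rewrite 1 [hsum]
      ring
    have h3 : (m : ℤ) ^ (k + 1) = m * (m : ℤ) ^ k := by ring
    linarith
  have hle : ∀ A : Finset G, A.card = m →
      (P k Aᶜ : ℤ) ≤ (((Fintype.card G - m : ℕ) : ℤ)) ^ k := by
    intro A hA
    have h := P_le k Aᶜ
    rw [Finset.card_compl, hA] at h
    exact_mod_cast h
  obtain ⟨A, hA, hA2⟩ := Pmin_mem (G := G) k hm
  have hkA := key A hA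
  rw [hA2] at hkA
  refine ⟨?_, ?_, ?_⟩
  · rw [hkA]
    have := mul_nonneg hnpos.le (sub_nonneg.2 (hle A hA))
    linarith
  · intro heq
    rw [heq] at hkA
    have h1 : (Fintype.card G : ℤ) * ((((Fintype.card G - m : ℕ) : ℤ)) ^ k - P k Aᶜ) = 0 := by
      linarith
    have h2 : (((Fintype.card G - m : ℕ) : ℤ)) ^ k - P k Aᶜ = 0 :=
      (mul_eq_zero.1 h1).resolve_left hnpos.ne'
    have hcc : (Aᶜ).card = Fintype.card G - m := by rw [Finset.card_compl, hA]
    have h3 : P k Aᶜ = (Aᶜ).card ^ k := by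
      rw [hcc]
      have : (P k Aᶜ : ℤ) = (((Fintype.card G - m : ℕ) : ℤ)) ^ k := by linarith
      exact_mod_cast this
    rcases Nat.eq_or_lt_of_le hm with h | h
    · exact Or.inl h
    · right
      rw [← hcc]
      refine card_dvd_of_closed hk2 _ ?_ h3
      rw [← Finset.card_pos, hcc]
      omega
  · intro hor
    -- a set B of size n - m closed under k-fold sums
    obtain ⟨B, hB, hBP⟩ : ∃ B : Finset G, B.card = Fintype.card G - m ∧
        P k B = B.card ^ k := by
      rcases hor with h | h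
      · refine ⟨∅, by rw [h]; simp, P_full_of_forall k ∅ ?_⟩
        intro a ha
        exact absurd (ha ⟨0, by omega⟩) (Finset.notMem_empty _)
      · have hpos : 0 < Fintype.card G - m := by
          rcases Nat.eq_zero_or_pos (Fintype.card G - m) with h0 | h0
          · rw [h0, zero_dvd_iff] at h
            exact absurd h Fintype.card_ne_zero
          · exact h0
        obtain ⟨c, hc⟩ := h
        have hcn : c ∣ Fintype.card G := ⟨_, by rw [mul_comm]; exact hc⟩
        obtain ⟨H, hH⟩ := exists_index (Fintype.card G) G Nat.card_eq_fintype_card c hcn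
        have hcpos : 0 < c := by
          rcases Nat.eq_zero_or_pos c with h0 | h0
          · rw [h0, mul_zero] at hc
            exact absurd hc Fintype.card_ne_zero
          · exact h0
        have hHc : Nat.card H = Fintype.card G - m := by
          have h1 := AddSubgroup.card_mul_index H
          rw [hH, Nat.card_eq_fintype_card (α := G), hc] at h1
          exact Nat.eq_of_mul_eq_mul_right hcpos h1
        refine ⟨univ.filter (fun x => x ∈ H), ?_, P_full_of_forall k _ ?_⟩
        · rw [← hHc, Nat.card_eq_fintype_card, Fintype.card_subtype]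
        · intro a ha
          simp only [Finset.mem_filter, Finset.mem_univ, true_and] at ha ⊢
          exact AddSubgroup.sum_mem H fun i _ => ha i
    have hc : (Bᶜ).card = m := by rw [Finset.card_compl, hB]; omega
    have h1 := key Bᶜ hc
    rw [compl_compl, hBP, hB] at h1
    have h2 := Pmin_le k Bᶜ
    rw [hc] at h2
    have h3 : (Fintype.card G : ℤ) * Pmin G k m ≤ Fintype.card G * P k Bᶜ :=
      mul_le_mul_of_nonneg_left (by exact_mod_cast h2) hnpos.le
    have h4 : (m : ℤ) * ((m : ℤ) ^ k - ((Fintype.card G - m : ℕ) : ℤ) ^ k) ≤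
        Fintype.card G * Pmin G k m := by
      rw [hkA]
      have := mul_nonneg hnpos.le (sub_nonneg.2 (hle A hA))
      linarith
    have h5 : ((((Fintype.card G - m) ^ k : ℕ) : ℤ)) = (((Fintype.card G - m : ℕ) : ℤ)) ^ k := by
      push_cast; ring
    rw [h5, sub_self, mul_zero, add_zero] at h1
    linarith

theorem P_singleton {k : ℕ} (hk : 1 ≤ k) (g : G) : P k {g} = 0 ↔ (k - 1) • g ≠ 0 := by
  classical
  rw [P_eq_zero_iff]
  have hg : k • g = (k - 1) • g + g := by
    obtain ⟨j, rfl⟩ : ∃ j, k = j + 1 := ⟨k - 1, by omega⟩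
    rw [Nat.add_sub_cancel, add_smul, one_smul]
  constructor
  · intro h h0
    have := h (fun _ => g) (fun _ => Finset.mem_singleton_self g)
    rw [Finset.sum_const, Finset.card_univ, Fintype.card_fin, Finset.mem_singleton, hg, h0,
      zero_add] at this
    exact this rfl
  · intro h a ha hs
    have h1 : a = fun _ => g := by
      ext i
      exact Finset.mem_singleton.1 (ha i)
    rw [h1, Finset.sum_const, Finset.card_univ, Fintype.card_fin, Finset.mem_singleton, hg] at hs
    exact h (by simpa using hs)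

theorem Pmin_one {k : ℕ} (hk : 1 ≤ k) :
    ((∀ g : G, (k - 1) • g = 0) → Pmin G k 1 = 1) ∧
    ((¬ ∀ g : G, (k - 1) • g = 0) → Pmin G k 1 = 0) := by
  classical
  constructor
  · intro h
    obtain ⟨A, hA, hA2⟩ := Pmin_mem (G := G) k (m := 1) Fintype.card_pos
    obtain ⟨g, rfl⟩ := Finset.card_eq_one.1 hA
    have h1 : P k ({g} : Finset G) ≠ 0 := fun h0 => (P_singleton hk g).1 h0 (h g)
    have h2 := P_le k ({g} : Finset G)
    rw [Finset.card_singleton, one_pow] at h2
    rw [← hA2]
    omega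
  · intro h
    push Not at h
    obtain ⟨g, hg⟩ := h
    have h1 := (P_singleton hk g).2 hg
    have h2 := Pmin_le k ({g} : Finset G)
    rw [Finset.card_singleton, h1] at h2
    omega

end

section
variable {G : Type} [AddCommGroup G] [Fintype G] [DecidableEq G]

theorem P_step (j : ℕ) (B : Finset G) : (P (j + 2) B : ℤ) =
    ∑ t, (cnt j B t : ℤ) * ∑ x ∈ B, ∑ y ∈ B, (if x + y + t ∈ B then (1 : ℤ) else 0) := by
  rw [P_eq]
  simp only [cnt_succ]
  push_cast
  have h1 : ∀ x y : G, ∑ s ∈ B, (cnt j B (s - x - y) : ℤ) =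
      ∑ t, (cnt j B t : ℤ) * (if x + y + t ∈ B then (1 : ℤ) else 0) := by
    intro x y
    rw [← Finset.univ_inter B, ← Finset.sum_ite_mem]
    rw [← Equiv.sum_comp (Equiv.addRight (x + y))]
    refine Finset.sum_congr rfl fun t _ => ?_
    have e1 : (Equiv.addRight (x + y)) t = x + y + t := by
      simp only [Equiv.coe_addRight]; abel
    have e2 : x + y + t - x - y = t := by abel
    rw [e1, e2, Finset.univ_inter]
    split_ifs <;> simp
  calc ∑ s ∈ B, ∑ x ∈ B, ∑ y ∈ B, (cnt j B (s - x - y) : ℤ)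
      = ∑ x ∈ B, ∑ s ∈ B, ∑ y ∈ B, (cnt j B (s - x - y) : ℤ) := Finset.sum_comm
    _ = ∑ x ∈ B, ∑ y ∈ B, ∑ s ∈ B, (cnt j B (s - x - y) : ℤ) :=
        Finset.sum_congr rfl fun x _ => Finset.sum_comm
    _ = ∑ x ∈ B, ∑ y ∈ B, ∑ t, (cnt j B t : ℤ) * (if x + y + t ∈ B then (1 : ℤ) else 0) :=
        Finset.sum_congr rfl fun x _ => Finset.sum_congr rfl fun y _ => h1 x y
    _ = ∑ x ∈ B, ∑ t, ∑ y ∈ B, (cnt j B t : ℤ) * (if x + y + t ∈ B then (1 : ℤ) else 0) :=
        Finset.sum_congr rfl fun x _ => Finset.sum_comm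
    _ = ∑ t, ∑ x ∈ B, ∑ y ∈ B, (cnt j B t : ℤ) * (if x + y + t ∈ B then (1 : ℤ) else 0) :=
        Finset.sum_comm
    _ = _ := by
        refine Finset.sum_congr rfl fun t _ => ?_
        rw [Finset.mul_sum]
        refine Finset.sum_congr rfl fun x _ => ?_
        rw [Finset.mul_sum]

theorem inner_le (B : Finset G) (hB : ¬ B.card ∣ Fintype.card G) (t : G) :
    ∑ x ∈ B, ∑ y ∈ B, (if x + y + t ∈ B then (1 : ℤ) else 0) ≤
      (B.card : ℤ) ^ 2 - (B.card - 1) := by
  have hinj : Function.Injective (fun x : G => x + t) := add_left_injective t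
  have hC : (B.image (fun x => x + t)).card = B.card := Finset.card_image_of_injective _ hinj
  have hd := Pool.Agent.Results.MP_682720_co.LargeSets.defect_ge (B.image (fun x => x + t))
    (by rw [hC]; exact hB)
  rw [hC] at hd
  unfold Pool.Agent.Results.MP_682720_co.LargeSets.N at hd
  rw [Finset.sum_image (fun x _ y _ h => hinj h)] at hd
  have h1 : ∀ x ∈ B, ∑ y ∈ B.image (fun x => x + t),
      (if x + t + y ∈ (B.image (fun x => x + t))ᶜ then (1 : ℤ) else 0) =
      ∑ y ∈ B, (1 - (if x + y + t ∈ B then (1 : ℤ) else 0)) := by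
    intro x _
    rw [Finset.sum_image (fun x _ y _ h => hinj h)]
    refine Finset.sum_congr rfl fun y _ => ?_
    have h2 : x + t + (y + t) ∈ (B.image (fun x => x + t))ᶜ ↔ ¬ x + y + t ∈ B := by
      rw [Finset.mem_compl, not_iff_not, Finset.mem_image]
      constructor
      · rintro ⟨z, hz, hzt⟩
        have h3 : z = x + y + t := by
          have h4 : z + t = x + y + t + t := by rw [hzt]; abel
          exact hinj h4
        rw [← h3]; exact hz
      · intro h
        exact ⟨_, h, by abel⟩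
    by_cases h : x + y + t ∈ B
    · rw [if_neg (by rw [h2]; exact not_not.2 h), if_pos h]; ring
    · rw [if_pos (h2.2 h), if_neg h]; ring
  rw [Finset.sum_congr rfl h1] at hd
  simp only [Finset.sum_sub_distrib, Finset.sum_const, nsmul_eq_mul, mul_one] at hd
  linarith

/-- the defect of a set whose size does not divide the order of the group -/
theorem P_le_of_not_dvd {k : ℕ} (hk : 2 ≤ k) (B : Finset G) (hB : ¬ B.card ∣ Fintype.card G) :
    (P k B : ℤ) ≤ (B.card : ℤ) ^ k - (B.card : ℤ) ^ (k - 2) * (B.card - 1) := by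
  obtain ⟨j, rfl⟩ : ∃ j, k = j + 2 := ⟨k - 2, by omega⟩
  rw [P_step, Nat.add_sub_cancel]
  have h1 : ∑ t, (cnt j B t : ℤ) * ∑ x ∈ B, ∑ y ∈ B, (if x + y + t ∈ B then (1 : ℤ) else 0) ≤
      ∑ t, (cnt j B t : ℤ) * ((B.card : ℤ) ^ 2 - (B.card - 1)) :=
    Finset.sum_le_sum fun t _ => mul_le_mul_of_nonneg_left (inner_le B hB t) (by positivity)
  rw [← Finset.sum_mul] at h1
  have h2 : ∑ t, (cnt j B t : ℤ) = (B.card : ℤ) ^ j := by exact_mod_cast sum_cnt j B
  rw [h2] at h1
  refine h1.trans (le_of_eq ?_)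
  ring

end

/-- Complement duality for `P(G,k,m)` in every finite abelian group `G` of order `n`. -/
theorem result : ∀ (G : Type) [AddCommGroup G] [Fintype G] [DecidableEq G] (k : ℕ), 1 ≤ k →
    (∀ A : Finset G, (Fintype.card G : ℤ) * (P k A + (-1) ^ k * P k (univ \ A)) =
      (A.card : ℤ) ^ (k + 1) + (-1) ^ k * ((Fintype.card G - A.card : ℕ) : ℤ) ^ (k + 1)) ∧
    (Odd k → ∀ m : ℕ, m ≤ Fintype.card G →
      (Fintype.card G : ℤ) * Pmin G k m = Fintype.card G * Pmin G k (Fintype.card G - m) +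
        ((m : ℤ) ^ (k + 1) - ((Fintype.card G - m : ℕ) : ℤ) ^ (k + 1)) ∧
      ((Fintype.card G : ℤ) * Pmin G k m =
          (m : ℤ) ^ (k + 1) - ((Fintype.card G - m : ℕ) : ℤ) ^ (k + 1) ↔
        ∃ B : Finset G, B.card = Fintype.card G - m ∧
          ∀ b : Fin k → G, (∀ i, b i ∈ B) → ∑ i, b i ∉ B)) ∧
    (Even k → ∀ m : ℕ, m ≤ Fintype.card G →
      (m : ℤ) * ((m : ℤ) ^ k - ((Fintype.card G - m : ℕ) : ℤ) ^ k) ≤
        Fintype.card G * Pmin G k m ∧
      ((Fintype.card G : ℤ) * Pmin G k m =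
          (m : ℤ) * ((m : ℤ) ^ k - ((Fintype.card G - m : ℕ) : ℤ) ^ k) ↔
        m = Fintype.card G ∨ (Fintype.card G - m) ∣ Fintype.card G) ∧
      (m < Fintype.card G → ¬ (Fintype.card G - m) ∣ Fintype.card G →
        (m : ℤ) * ((m : ℤ) ^ k - ((Fintype.card G - m : ℕ) : ℤ) ^ k) +
          Fintype.card G * (((Fintype.card G - m : ℕ) : ℤ) ^ (k - 2) *
            (((Fintype.card G - m : ℕ) : ℤ) - 1)) ≤ Fintype.card G * Pmin G k m)) ∧
    (∀ q : ℕ, q.Prime → q ∣ Fintype.card G → ¬ q ∣ k - 1 → ∀ m : ℕ, m ≤ Fintype.card G / q →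
      Pmin G k m = 0 ∧ (Odd k → (Fintype.card G : ℤ) * Pmin G k (Fintype.card G - m) =
        ((Fintype.card G - m : ℕ) : ℤ) ^ (k + 1) - (m : ℤ) ^ (k + 1))) ∧
    ((∀ g : G, (k - 1) • g = 0) → Pmin G k 1 = 1 ∧
      (Odd k → (Fintype.card G : ℤ) * Pmin G k (Fintype.card G - 1) =
        Fintype.card G + ((Fintype.card G - 1 : ℕ) : ℤ) ^ (k + 1) - 1)) ∧
    ((¬ ∀ g : G, (k - 1) • g = 0) → Pmin G k 1 = 0 ∧
      (Odd k → (Fintype.card G : ℤ) * Pmin G k (Fintype.card G - 1) =
        ((Fintype.card G - 1 : ℕ) : ℤ) ^ (k + 1) - 1)) := by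
  classical
  intro G _ _ _ k hk
  have hrefl : ∀ m : ℕ, m ≤ Fintype.card G → Odd k →
      (Fintype.card G : ℤ) * Pmin G k (Fintype.card G - m) = Fintype.card G * Pmin G k m +
        (((Fintype.card G - m : ℕ) : ℤ) ^ (k + 1) - (m : ℤ) ^ (k + 1)) := by
    intro m hm hodd
    have h := Pmin_refl (G := G) hodd hm
    linarith
  refine ⟨?_, ?_, ?_, ?_, ?_, ?_⟩
  · intro A
    have h := P_compl k A
    rw [Finset.card_compl] at h
    rw [← Finset.compl_eq_univ_sdiff]
    convert h using 2
  · intro hodd m hm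
    have h := Pmin_refl (G := G) hodd hm
    refine ⟨h, ?_, ?_⟩
    · intro heq
      have h0 : (Fintype.card G : ℤ) * Pmin G k (Fintype.card G - m) = 0 := by linarith
      have h1 : Pmin G k (Fintype.card G - m) = 0 := by
        have := (mul_eq_zero.1 h0).resolve_left (by exact_mod_cast Fintype.card_ne_zero)
        exact_mod_cast this
      obtain ⟨B, hB, hB2⟩ := Pmin_mem (G := G) k (m := Fintype.card G - m) (Nat.sub_le _ _)
      rw [h1] at hB2
      exact ⟨B, hB, (P_eq_zero_iff k B).1 hB2⟩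
    · rintro ⟨B, hB, hB2⟩
      have h1 := Pmin_le k B
      rw [(P_eq_zero_iff k B).2 hB2, hB] at h1
      have h2 : Pmin G k (Fintype.card G - m) = 0 := by omega
      rw [h, h2]
      simp
  · intro heven m hm
    refine ⟨(Pmin_even heven hk hm).1, (Pmin_even heven hk hm).2, fun _ hnd => ?_⟩
    have hk2 : 2 ≤ k := by
      obtain ⟨r, hr⟩ := heven
      omega
    obtain ⟨A, hA, hA2⟩ := Pmin_mem (G := G) k hm
    have hcc : (Aᶜ).card = Fintype.card G - m := by rw [Finset.card_compl, hA]
    have h1 := P_le_of_not_dvd hk2 Aᶜ (by rw [hcc]; exact hnd)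
    have h2 := P_compl k A
    rw [heven.neg_one_pow, hA, hcc, hA2] at h2
    rw [hcc] at h1
    have hnpos : (0 : ℤ) ≤ Fintype.card G := by positivity
    have h3 := mul_le_mul_of_nonneg_left h1 hnpos
    have hsum : (Fintype.card G : ℤ) = m + ((Fintype.card G - m : ℕ) : ℤ) := by
      rw [Nat.cast_sub hm]; ring
    have h4 : (Fintype.card G : ℤ) * (((Fintype.card G - m : ℕ) : ℤ)) ^ k =
        (m : ℤ) * (((Fintype.card G - m : ℕ) : ℤ)) ^ k +
          (((Fintype.card G - m : ℕ) : ℤ)) ^ (k + 1) := by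
      nth_rewrite 1 [hsum]
      ring
    have h5 : (m : ℤ) ^ (k + 1) = m * (m : ℤ) ^ k := by ring
    linarith
  · intro q hq hqn hqk m hm
    have h0 := Pmin_zero (G := G) hk hq hqn hqk hm
    refine ⟨h0, fun hodd => ?_⟩
    have hm' : m ≤ Fintype.card G := hm.trans (Nat.div_le_self _ _)
    rw [hrefl m hm' hodd, h0]
    simp
  · intro h
    have h1 := (Pmin_one (G := G) hk).1 h
    refine ⟨h1, fun hodd => ?_⟩
    rw [hrefl 1 Fintype.card_pos hodd, h1]
    push_cast
    ring
  · intro h
    have h1 := (Pmin_one (G := G) hk).2 h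
    refine ⟨h1, fun hodd => ?_⟩
    rw [hrefl 1 Fintype.card_pos hodd, h1]
    push_cast
    ring

end Pool.Agent.Results.MP_ed46bc_co.ComplementDuality
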